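import Pool.Agent.Lib.MP_492a9e_co.R.Zq
import Pool.Agent.Lib.MP_492a9e_co.Pen.Final

/-!
# Dijoins in digraphs that become core complete by a few more arcs

Every directed cut of `D` has at least `(t + 1) m` arcs, and `D` with the additional arcs
`x i → v i`, `i < n`, satisfies the condition of `Wood3.pack_digraph`. All `v i` can be reached from
`y`. If `n ≤ t` or `(t + 1) m #{i | x i ∈ U} ≤ t d(U)` for all closed `U` without `y`, then `D` has
`m` disjoint dijoins.

Proof. `zq` with `ζ = m (Σ [x i] - n [y])` gives a set `c` of arcs such that a closed `U` without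
`y` is entered by at least `m #{i | x i ∈ U}` arcs of `c`, and every directed cut contains at least
`m` other arcs. The other arcs contain `m` disjoint dijoins of the larger digraph. The arcs of `c`
contain, for every `i`, `m` sets which meet all directed cuts entering a set with `x i` and
without `y`, all these `n m` sets being disjoint (theorem of Edmonds and Lovasz).
-/

open Finset WoodR

namespace WoodArc

set_option linter.unusedSectionVars false

/-- the condition of `Wood3.pack_digraph` for a weakly connected digraph -/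
def Core {V A : Type} (tl hd : A → V) : Prop :=
  ∀ s t : V, (∀ z, Wood3.Re tl hd z s → Wood3.Re tl hd s z) →
    (∀ z, Wood3.Re tl hd t z → Wood3.Re tl hd z t) →
    (∃ t1 t2, Wood3.Re tl hd s t1 ∧ Wood3.Re tl hd s t2 ∧
      ¬ ∃ z, Wood3.Re tl hd t1 z ∧ Wood3.Re tl hd t2 z) →
    (∃ s1 s2, Wood3.Re tl hd s1 t ∧ Wood3.Re tl hd s2 t ∧
      ¬ ∃ z, Wood3.Re tl hd z s1 ∧ Wood3.Re tl hd z s2) →
    Wood3.Re tl hd s t

/-- every directed cut (of a nonempty proper vertex set) has at least `k` arcs -/
def CutGe {V A : Type} (tl hd : A → V) (k : ℕ) : Prop :=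
  ∀ U : Set V, U.Nonempty → U ≠ Set.univ → (∀ a, tl a ∈ U → hd a ∈ U) →
    k ≤ {a | tl a ∉ U ∧ hd a ∈ U}.ncard

/-- `m` disjoint dijoins -/
def Dij {V A : Type} (tl hd : A → V) (m : ℕ) : Prop :=
  ∃ J : Fin m → Set A, (∀ i j, i ≠ j → Disjoint (J i) (J j)) ∧
    ∀ i, ∀ U : Set V, U.Nonempty → U ≠ Set.univ → (∀ a, tl a ∈ U → hd a ∈ U) →
      ∃ a ∈ J i, tl a ∉ U ∧ hd a ∈ U

/-- **additional arcs whose heads can be reached from `y`** -/
theorem star {V A : Type} [Fintype V] [Fintype A] (tl hd : A → V) (n t m : ℕ) (x v : Fin n → V)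
    (y : V) (hv : ∀ i, Wood3.Re tl hd y (v i)) (hC : Core (Sum.elim tl x) (Sum.elim hd v))
    (hcut : CutGe tl hd ((t + 1) * m))
    (hn : n ≤ t ∨ ∀ U : Set V, (∀ a, tl a ∈ U → hd a ∈ U) → y ∉ U →
      (t + 1) * m * {i | x i ∈ U}.ncard ≤ t * {a | tl a ∉ U ∧ hd a ∈ U}.ncard) :
    Dij tl hd m := by
  classical
  rcases Nat.eq_zero_or_pos m with rfl | hm
  · exact ⟨fun _ => ∅, fun i => i.elim0, fun i => i.elim0⟩
  have hcard : ∀ U : Set V, {a | tl a ∉ U ∧ hd a ∈ U}.ncard = (entr tl hd U.toFinset).card := by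
    intro U
    rw [← Set.ncard_coe_finset]
    congr 1
    ext a
    rw [mem_coe, mem_entr, Set.mem_toFinset, Set.mem_toFinset]
    rfl
  have hcutF : ∀ U : Finset V, U.Nonempty → U ≠ univ → (∀ a, tl a ∈ U → hd a ∈ U) →
      (t + 1) * m ≤ (entr tl hd U).card := by
    intro U h1 h2 h3
    have h4 := hcut (U : Set V) (by simpa using h1) (fun h => h2 (by
      rw [eq_univ_iff_forall]
      intro v
      rw [← mem_coe, h]
      exact Set.mem_univ v)) (fun a ha => mem_coe.2 (h3 a (mem_coe.1 ha)))
    rw [hcard] at h4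
    simpa using h4
  let ζ : V → ℤ := fun v => m * ((∑ i, WoodW.ind (x i) v) - n * WoodW.ind y v)
  have hζ : ∀ U : Finset V, ∑ v ∈ U, ζ v =
      m * (((univ.filter fun i => x i ∈ U).card : ℤ) - n * (if y ∈ U then 1 else 0)) := by
    intro U
    rw [← mul_sum, sum_sub_distrib, ← mul_sum, sum_ind, sum_comm,
      sum_congr rfl fun i _ => sum_ind (x i) U, ← sum_filter, sum_const, nsmul_eq_mul, mul_one]
  have hfil : ∀ U : Finset V, (univ.filter fun i => x i ∈ U).card ≤ n := fun U => by
    refine (card_le_univ _).trans ?_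
    rw [Fintype.card_fin]
  have hineq : ∀ U : Finset V, (∀ a, tl a ∈ U → hd a ∈ U) → y ∉ U →
      (t + 1) * m * (univ.filter fun i => x i ∈ U).card ≤ t * (entr tl hd U).card := by
    intro U hU hy
    rcases hn with hn | hn
    · rcases Nat.eq_zero_or_pos (univ.filter fun i => x i ∈ U).card with h2 | h2
      · rw [h2, mul_zero]
        exact Nat.zero_le _
      · obtain ⟨i, hi⟩ := card_pos.1 h2
        have h3 := hcutF U ⟨x i, (mem_filter.1 hi).2⟩ (fun h => hy (h ▸ mem_univ _)) hU
        rw [mul_comm]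
        exact Nat.mul_le_mul ((hfil U).trans hn) h3
    · have h1 := hn (U : Set V) (fun a ha => mem_coe.2 (hU a (mem_coe.1 ha)))
        (fun h => hy (mem_coe.1 h))
      rw [hcard] at h1
      have h2 : {i | x i ∈ (U : Set V)}.ncard = (univ.filter fun i => x i ∈ U).card := by
        rw [← Set.ncard_coe_finset]
        congr 1
        ext i
        simp
      rw [h2] at h1
      simpa using h1
  obtain ⟨c, hc1, hc2⟩ := zq tl hd t ζ (by
      rw [hζ]
      simp) (by
      intro U hU
      rw [hζ]
      have h1 := hfil U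
      by_cases hy : y ∈ U
      · rw [if_pos hy]
        have h2 : (m : ℤ) * (((univ.filter fun i => x i ∈ U).card : ℤ) - n * 1) ≤ 0 := by
          refine mul_nonpos_of_nonneg_of_nonpos (by positivity) ?_
          rw [mul_one]
          omega
        have h3 : ((t : ℤ) + 1) * (m * (((univ.filter fun i => x i ∈ U).card : ℤ) - n * 1)) ≤ 0 :=
          mul_nonpos_of_nonneg_of_nonpos (by positivity) h2
        exact h3.trans (by positivity)
      · rw [if_neg hy, mul_zero, sub_zero, ← mul_assoc]
        exact_mod_cast hineq U hU hy)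
  -- the other arcs
  let S : Set (A ⊕ Fin n) := {o | ∃ a, o = Sum.inl a ∧ a ∉ c}
  obtain ⟨B, hB1, hB2, hB3⟩ := Wood3.pack_digraph (Sum.elim tl x) (Sum.elim hd v) S m
    (fun s t hs ht _ h1 h2 => hC s t hs ht h1 h2) (by
    rintro U hU ⟨o, ho1, ho2⟩
    have hUc : ∀ a, tl a ∈ U → hd a ∈ U := fun a ha => hU (Sum.inl a) ha
    have h1 := hcut U ⟨_, ho2⟩ (fun h => ho1 (h ▸ Set.mem_univ _)) hUc
    rw [hcard] at h1
    have h2 := hc2 U.toFinset (fun a ha => by
      rw [Set.mem_toFinset] at ha ⊢
      exact hUc a ha)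
    have h3 : {o ∈ S | Sum.elim tl x o ∉ U ∧ Sum.elim hd v o ∈ U} =
        Sum.inl '' ((((entr tl hd U.toFinset).filter fun a => a ∉ c) : Finset A) : Set A) := by
      ext o
      constructor
      · rintro ⟨⟨a, rfl, ha⟩, h4, h5⟩
        refine ⟨a, ?_, rfl⟩
        rw [mem_coe, mem_filter, mem_entr, Set.mem_toFinset, Set.mem_toFinset]
        exact ⟨⟨h4, h5⟩, ha⟩
      · rintro ⟨a, ha, rfl⟩
        rw [mem_coe, mem_filter, mem_entr, Set.mem_toFinset, Set.mem_toFinset] at ha
        exact ⟨⟨a, rfl, ha.2⟩, ha.1.1, ha.1.2⟩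
    rw [h3, Set.ncard_image_of_injective _ Sum.inl_injective, Set.ncard_coe_finset]
    exact Nat.le_of_mul_le_mul_left (h1.trans h2) (Nat.succ_pos t))
  -- the arcs of `c`
  let r2 : V → V → Prop := fun u v => Wood3.Re tl hd v u ∨ Wood3.Re tl hd v y
  have hrefl : ∀ v, r2 v v := fun v => Or.inl Relation.ReflTransGen.refl
  have htr : ∀ u v w, r2 u v → r2 v w → r2 u w := by
    rintro u v w (h1 | h1) (h2 | h2)
    · exact Or.inl (Relation.ReflTransGen.trans h2 h1)
    · exact Or.inr h2
    · exact Or.inr (Relation.ReflTransGen.trans h2 h1)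
    · exact Or.inr h2
  have : Nonempty (Fin m) := ⟨⟨0, hm⟩⟩
  let R : Option (Fin n) × Fin m → Finset V := fun p =>
    p.1.elim univ fun i => univ.filter fun v => r2 v (x i)
  obtain ⟨f, hf⟩ := Wood2.edmonds (C := Option (Fin n) × Fin m) hrefl htr (Rt := ∅) (tl := hd)
    (hd := tl) c.card c R rfl
    (fun e _ => Or.inl (Relation.ReflTransGen.single ⟨e, rfl, rfl⟩))
    (by
      rintro ⟨_ | i, j⟩
      · exact fun u _ v _ => mem_univ v
      · intro u hu v hvu
        change v ∈ univ.filter fun v => r2 v (x i)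
        change u ∈ univ.filter fun v => r2 v (x i) at hu
        rw [mem_filter] at hu ⊢
        exact ⟨mem_univ _, htr _ _ _ hvu hu.2⟩)
    (fun _ => empty_subset _)
    (by
      rintro W ⟨⟨w0, hw0⟩, hWup, -⟩
      have hyW : y ∈ W := hWup w0 hw0 y (Or.inr Relation.ReflTransGen.refl)
      have hU : ∀ a, tl a ∈ Wᶜ → hd a ∈ Wᶜ := by
        intro a ha
        rw [mem_compl] at ha ⊢
        exact fun h => ha (hWup _ h _ (Or.inl (Relation.ReflTransGen.single ⟨a, rfl, rfl⟩)))
      have h1 := hc1 Wᶜ hU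
      rw [hζ, if_neg (fun h => (mem_compl.1 h) hyW), mul_zero, sub_zero] at h1
      have h2 : (Wood2.num R W : ℤ) ≤
          m * ((univ.filter fun i => x i ∈ Wᶜ).card : ℤ) := by
        have h3 : (univ.filter fun p : Option (Fin n) × Fin m => Disjoint W (R p)) ⊆
            ((univ.filter fun i => x i ∈ Wᶜ) ×ˢ (univ : Finset (Fin m))).image
              (fun p : Fin n × Fin m => (some p.1, p.2)) := by
          rintro ⟨_ | i, j⟩ hp
          · rw [mem_filter] at hp
            exact absurd (mem_univ w0) (Finset.disjoint_left.1 hp.2 hw0)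
          · rw [mem_filter] at hp
            rw [mem_image]
            refine ⟨(i, j), ?_, rfl⟩
            rw [mem_product, mem_filter, mem_compl]
            refine ⟨⟨mem_univ _, fun h => Finset.disjoint_left.1 hp.2 h ?_⟩, mem_univ _⟩
            exact mem_filter.2 ⟨mem_univ _, hrefl _⟩
        have h4 := (card_le_card h3).trans card_image_le
        rw [card_product, card_univ, Fintype.card_fin, mul_comm] at h4
        exact_mod_cast h4
      have h5 : ((entr tl hd Wᶜ).filter fun a => a ∈ c) = Wood2.ent hd tl c W := by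
        ext a
        rw [mem_filter, mem_entr, Wood2.mem_ent, mem_compl, mem_compl, not_not]
        tauto
      rw [h5] at h1
      exact_mod_cast h2.trans h1)
  refine ⟨fun j => {a | a ∈ c ∧ (f a).2 = j} ∪ {a | Sum.inl a ∈ B j}, fun i j hij => ?_,
    fun j U hne huniv hU => ?_⟩
  · have hBc : ∀ i a, Sum.inl a ∈ B i → a ∉ c := by
      intro i a h
      obtain ⟨b, hb, hb'⟩ := hB1 i h
      have e1 : a = b := Sum.inl_injective hb
      exact e1 ▸ hb'
    rw [Set.disjoint_left]
    rintro a (h1 | h1) (h2 | h2)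
    · exact hij (h1.2.symm.trans h2.2)
    · exact hBc j a h2 h1.1
    · exact hBc i a h1 h2.1
    · exact Set.disjoint_left.1 (hB2 i j hij) h1 h2
  · by_cases hring : ∃ i, x i ∈ U ∧ v i ∉ U
    · obtain ⟨i, hi, hvi⟩ := hring
      have hy : y ∉ U := fun h => hvi (Wood2.closed_reach hU (hv i) h)
      obtain ⟨e, he, h1, h2, h3⟩ := hf (some i, j) (U.toFinset)ᶜ ⟨⟨y, by
          rw [mem_compl, Set.mem_toFinset]; exact hy⟩, by
          intro u hu v huv
          rw [mem_compl, Set.mem_toFinset] at hu ⊢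
          rcases huv with h | h
          · exact fun hv => hu (Wood2.closed_reach hU h hv)
          · exact fun hv => hy (Wood2.closed_reach hU h hv), disjoint_empty_right _⟩ (by
          rw [Finset.disjoint_left]
          intro v hv hv'
          rw [mem_compl, Set.mem_toFinset] at hv
          rcases (mem_filter.1 hv').2 with h | h
          · exact hv (Wood2.closed_reach hU h hi)
          · exact hy (Wood2.closed_reach hU h hi))
      rw [mem_compl, Set.mem_toFinset] at h3
      rw [mem_compl, Set.mem_toFinset, not_not] at h2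
      exact ⟨e, Or.inl ⟨he, by rw [h1]⟩, h3, h2⟩
    · push Not at hring
      have h1 := hcut U hne huniv hU
      obtain ⟨a0, ha0⟩ : {a | tl a ∉ U ∧ hd a ∈ U}.Nonempty := by
        rw [Set.nonempty_iff_ne_empty]
        intro h
        rw [h, Set.ncard_empty] at h1
        have : 0 < (t + 1) * m := Nat.mul_pos (Nat.succ_pos t) hm
        omega
      obtain ⟨o, ho1, ho2, ho3⟩ := hB3 j U (by
        rintro (a | i) h
        · exact hU a h
        · exact hring i h) ⟨Sum.inl a0, ha0.1, ha0.2⟩
      obtain ⟨a, rfl, ha⟩ := hB1 j ho1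
      exact ⟨a, Or.inr ho1, ho2, ho3⟩

end WoodArc
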