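import Pool.Agent.Lib.MP_492a9e_co.R.Flow
import Pool.Agent.Lib.MP_492a9e_co.W.Hakimi

/-!
# Flows from one vertex to several vertices (helper25)

`hoffman_cap`: integral flows `φ ≤ c` with free reversed arcs. `unit_flow`: sets of edges with
prescribed net inflow (from Hakimi's theorem). `split_flow`: a set of edges with net inflow
`m (∑ [x i] - n [y])` contains disjoint sets with net inflow `m ([x i] - [y])`.

`star_split`: if every closed set `U` that avoids `y` and contains one of `x 1, …, x k` is entered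
by at least `(k + 1) m` arcs, then the arcs contain disjoint sets `P, B 1, …, B k` such that `P`
has at least the share `1 / (k + 1)` in every closed set, and `B i` enters every closed set that
contains `x i` and avoids `y` at least `m` times.
-/

open Finset

namespace WoodR

set_option linter.unusedSectionVars false

variable {V A E : Type} [Fintype V] [DecidableEq V] [Fintype A] [DecidableEq A] [Fintype E]
  [DecidableEq E]

/-- **flows with prescribed net inflow and upper bound** -/
theorem hoffman_cap (tl hd : A → V) (c : ℕ) (hc : 0 < c) (g : V → ℤ) (h0 : ∑ v, g v = 0)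
    (hg : ∀ U : Finset V, (∀ a, tl a ∈ U → hd a ∈ U) →
      ∑ v ∈ U, g v ≤ c * (entr tl hd U).card) :
    ∃ φ : A → ℤ, (∀ a, φ a ≤ c) ∧ ∀ v, net tl hd φ v = g v := by
  obtain ⟨φ, h1, h2⟩ := hoffman (A := A × Fin c) (fun e => tl e.1) (fun e => hd e.1) g h0 (by
    intro U hU
    refine (hg U fun a ha => hU (a, ⟨0, hc⟩) ha).trans (le_of_eq ?_)
    have h3 : entr (fun e : A × Fin c => tl e.1) (fun e => hd e.1) U =
        entr tl hd U ×ˢ (univ : Finset (Fin c)) := by
      ext ⟨a, i⟩
      rw [mem_product, mem_entr, mem_entr]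
      exact ⟨fun h => ⟨h, mem_univ _⟩, fun h => h.1⟩
    rw [h3, card_product, card_univ, Fintype.card_fin]
    push_cast
    ring)
  refine ⟨fun a => ∑ i, φ (a, i), fun a => ?_, fun v => ?_⟩
  · refine (sum_le_sum fun i _ => h1 (a, i)).trans (le_of_eq ?_)
    simp
  · rw [← h2 v]
    unfold net
    rw [Fintype.sum_prod_type]
    refine sum_congr rfl fun a _ => ?_
    rw [sum_mul]

/-- number of edges of `F` that enter `X` -/
def en (tl hd : E → V) (F : Finset E) (X : Finset V) : ℕ :=
  (F.filter fun e => tl e ∉ X ∧ hd e ∈ X).card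

/-- net inflow of `F` into `X` -/
def nb (tl hd : E → V) (F : Finset E) (X : Finset V) : ℤ :=
  ∑ e ∈ F, ((if hd e ∈ X then 1 else 0) - (if tl e ∈ X then 1 else 0))

theorem nb_eq (tl hd : E → V) (F : Finset E) (X : Finset V) :
    nb tl hd F X = en tl hd F X - en hd tl F X := by
  unfold nb en
  rw [card_filter, card_filter]
  push_cast
  rw [← sum_sub_distrib]
  refine sum_congr rfl fun e _ => ?_
  by_cases h1 : tl e ∈ X <;> by_cases h2 : hd e ∈ X <;> simp [h1, h2]

theorem nb_le (tl hd : E → V) (F : Finset E) (X : Finset V) :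
    nb tl hd F X ≤ en tl hd F X := by
  rw [nb_eq]
  have : (0 : ℤ) ≤ en hd tl F X := Int.natCast_nonneg _
  omega

theorem nb_sdiff (tl hd : E → V) {F G : Finset E} (h : G ⊆ F) (X : Finset V) :
    nb tl hd (F \ G) X = nb tl hd F X - nb tl hd G X := by
  unfold nb
  rw [← sum_sdiff h]
  ring

/-- **sets of edges with prescribed net inflow** -/
theorem unit_flow (tl hd : E → V) (F : Finset E) (g : V → ℤ) (h0 : ∑ v, g v = 0)
    (hg : ∀ X : Finset V, ∑ v ∈ X, g v ≤ en tl hd F X) :
    ∃ B ⊆ F, ∀ X : Finset V, nb tl hd B X = ∑ v ∈ X, g v := by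
  classical
  let T : {e // e ∈ F} → V := fun e => tl e.1
  let H : {e // e ∈ F} → V := fun e => hd e.1
  have hone : ∀ X : Finset V, Pool.Agent.Lib.MP492a9eW.yy T H (fun _ => 1) X = nb tl hd F X := by
    intro X
    unfold Pool.Agent.Lib.MP492a9eW.yy nb
    rw [← sum_coe_sort F]
    refine sum_congr rfl fun e _ => ?_
    rw [one_mul]
    rfl
  have hcr : ∀ X : Finset V, Pool.Agent.Lib.MP492a9eW.cr T H X =
      en tl hd F X + en hd tl F X := by
    intro X
    unfold Pool.Agent.Lib.MP492a9eW.cr en
    rw [card_filter, card_filter]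
    push_cast
    rw [← sum_add_distrib, ← sum_coe_sort F]
    refine sum_congr rfl fun e _ => ?_
    unfold Pool.Agent.Lib.MP492a9eW.ind
    by_cases h1 : tl e.1 ∈ X <;> by_cases h2 : hd e.1 ∈ X <;> simp [T, H, h1, h2]
  have hcompl : ∀ X : Finset V, - (en hd tl F X : ℤ) ≤ ∑ v ∈ X, g v := by
    intro X
    have h1 := hg Xᶜ
    have h2 : ∑ v ∈ Xᶜ, g v = - ∑ v ∈ X, g v := by
      have h3 := sum_add_sum_compl X g
      rw [h0] at h3
      omega
    have h3 : en tl hd F Xᶜ = en hd tl F X := by
      unfold en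
      congr 1
      ext e
      simp only [mem_filter, mem_compl, not_not]
      tauto
    rw [h2, h3] at h1
    omega
  obtain ⟨s, hs1, hs2⟩ := Pool.Agent.Lib.MP492a9eW.hakimi (tl := T) (hd := H)
    (fun v => 2 * g v - nb tl hd F {v}) (by
      rw [sum_sub_distrib, ← mul_sum, h0]
      have h1 : ∑ v, nb tl hd F {v} = 0 := by
        have h2 := Pool.Agent.Lib.MP492a9eW.yy_eq_sum (tl := T) (hd := H) (fun _ => 1) univ
        rw [Pool.Agent.Lib.MP492a9eW.yy_univ] at h2
        rw [h2]
        exact sum_congr rfl fun v _ => (hone _).symm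
      rw [h1]
      norm_num) (by
      intro v
      refine ⟨en tl hd F {v} - g v, ?_⟩
      rw [hcr, nb_eq]
      ring) (by
      intro X
      have h1 : ∑ v ∈ X, nb tl hd F {v} = nb tl hd F X := by
        rw [← hone, Pool.Agent.Lib.MP492a9eW.yy_eq_sum]
        exact sum_congr rfl fun v _ => (hone _).symm
      rw [sum_sub_distrib, ← mul_sum, h1, nb_eq, hcr]
      have := hcompl X
      omega)
  refine ⟨F.filter fun e => ∃ h : e ∈ F, s ⟨e, h⟩ = 1, filter_subset _ _, fun X => ?_⟩
  have h1 := hs2 X
  have h2 : ∑ v ∈ X, nb tl hd F {v} = nb tl hd F X := by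
    rw [← hone, Pool.Agent.Lib.MP492a9eW.yy_eq_sum]
    exact sum_congr rfl fun v _ => (hone _).symm
  rw [sum_sub_distrib, ← mul_sum, h2] at h1
  have h3 : Pool.Agent.Lib.MP492a9eW.yy T H s X =
      2 * nb tl hd (F.filter fun e => ∃ h : e ∈ F, s ⟨e, h⟩ = 1) X - nb tl hd F X := by
    unfold nb
    rw [sum_filter, mul_sum, ← sum_sub_distrib, ← sum_coe_sort F]
    unfold Pool.Agent.Lib.MP492a9eW.yy
    refine sum_congr rfl fun e _ => ?_
    unfold Pool.Agent.Lib.MP492a9eW.ind
    rcases hs1 e with h | h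
    · have h4 : ∃ h : e.1 ∈ F, s ⟨e.1, h⟩ = 1 := ⟨e.2, h⟩
      rw [if_pos h4, h]
      simp only [T, H]
      ring
    · have h4 : ¬ ∃ h : e.1 ∈ F, s ⟨e.1, h⟩ = 1 := by
        rintro ⟨h5, h6⟩
        rw [h] at h6
        exact absurd h6 (by norm_num)
      rw [if_neg h4, h]
      simp only [T, H]
      ring
  rw [h3] at h1
  omega

theorem sum_ind_mul (m : ℤ) (a b : V) (X : Finset V) :
    ∑ v ∈ X, m * (WoodW.ind a v - WoodW.ind b v) =
      m * ((if a ∈ X then 1 else 0) - (if b ∈ X then 1 else 0)) := by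
  rw [← mul_sum, sum_sub_distrib, sum_ind, sum_ind]

/-- **splitting a flow** -/
theorem split_flow (tl hd : E → V) (m : ℕ) (y : V) : ∀ (n : ℕ) (x : Fin n → V) (F : Finset E),
    (∀ X : Finset V, nb tl hd F X =
      ∑ i, m * ((if x i ∈ X then 1 else 0) - (if y ∈ X then 1 else 0) : ℤ)) →
    ∃ G : Fin n → Finset E, (∀ i, G i ⊆ F) ∧ (∀ i j, i ≠ j → Disjoint (G i) (G j)) ∧
      ∀ i, ∀ X : Finset V, nb tl hd (G i) X =
        m * ((if x i ∈ X then 1 else 0) - (if y ∈ X then 1 else 0)) := by
  intro n
  induction n with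
  | zero =>
    intro x F _
    exact ⟨fun i => i.elim0, fun i => i.elim0, fun i => i.elim0, fun i => i.elim0⟩
  | succ n ih =>
    intro x F hF
    obtain ⟨B, hB1, hB2⟩ := unit_flow tl hd F
      (fun v => m * (WoodW.ind (x 0) v - WoodW.ind y v)) (by
        rw [sum_ind_mul]
        simp) (by
        intro X
        rw [sum_ind_mul]
        have h1 := nb_le tl hd F X
        rw [hF X] at h1
        by_cases hy : y ∈ X
        · have h2 : (m : ℤ) * ((if x 0 ∈ X then 1 else 0) - (if y ∈ X then 1 else 0)) ≤ 0 := by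
            rw [if_pos hy]
            split_ifs <;> simp
          exact h2.trans (Int.natCast_nonneg _)
        · refine le_trans ?_ h1
          refine single_le_sum (f := fun i : Fin (n + 1) =>
            (m : ℤ) * ((if x i ∈ X then 1 else 0) - (if y ∈ X then 1 else 0)))
            (fun i _ => ?_) (mem_univ (0 : Fin (n + 1)))
          rw [if_neg hy]
          split_ifs <;> simp)
    obtain ⟨G, g1, g2, g3⟩ := ih (fun i => x i.succ) (F \ B) (by
      intro X
      rw [nb_sdiff tl hd hB1, hF X, hB2 X, sum_ind_mul, Fin.sum_univ_succ]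
      ring)
    have hd0 : ∀ i, Disjoint B (G i) := fun i =>
      disjoint_of_subset_right (g1 i) disjoint_sdiff
    refine ⟨Fin.cons B G, fun i => ?_, fun i j => ?_, fun i X => ?_⟩
    · refine Fin.cases ?_ (fun i => ?_) i
      · exact hB1
      · exact (g1 i).trans sdiff_subset
    · refine Fin.cases ?_ (fun i => ?_) i
      · refine Fin.cases ?_ (fun j => ?_) j
        · intro h
          exact absurd rfl h
        · intro _
          exact hd0 j
      · refine Fin.cases ?_ (fun j => ?_) j
        · intro _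
          exact (hd0 i).symm
        · intro h
          exact g2 i j fun h' => h (by rw [h'])
    · refine Fin.cases ?_ (fun i => ?_) i
      · exact (hB2 X).trans (sum_ind_mul _ _ _ _)
      · exact g3 i X

/-- **star flow** -/
theorem star_split (tl hd : A → V) (k m : ℕ) (x : Fin k → V) (y : V)
    (hcut : ∀ U : Finset V, (∀ a, tl a ∈ U → hd a ∈ U) → y ∉ U → (∃ i, x i ∈ U) →
      (k + 1) * m ≤ (entr tl hd U).card) :
    ∃ (P : Finset A) (B : Fin k → Finset A), (∀ i, Disjoint P (B i)) ∧
      (∀ i j, i ≠ j → Disjoint (B i) (B j)) ∧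
      (∀ U : Finset V, (∀ a, tl a ∈ U → hd a ∈ U) →
        (entr tl hd U).card ≤ (k + 1) * (P.filter fun a => tl a ∉ U ∧ hd a ∈ U).card) ∧
      ∀ i, ∀ U : Finset V, (∀ a, tl a ∈ U → hd a ∈ U) → x i ∈ U → y ∉ U →
        m ≤ ((B i).filter fun a => tl a ∉ U ∧ hd a ∈ U).card := by
  classical
  rcases Nat.eq_zero_or_pos k with rfl | hk
  · refine ⟨univ, fun i => i.elim0, fun i => i.elim0, fun i => i.elim0, fun U _ => ?_,
      fun i => i.elim0⟩
    rw [zero_add, one_mul]
    exact le_refl _
  -- the numbers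
  let j : Finset V → ℤ := fun U => ∑ i, (if x i ∈ U then 1 else 0 : ℤ)
  have hj0 : ∀ U, 0 ≤ j U := fun U => sum_nonneg fun i _ => by split_ifs <;> norm_num
  have hjk : ∀ U, j U ≤ k := by
    intro U
    refine (sum_le_sum (g := fun _ => (1 : ℤ)) fun i _ => by split_ifs <;> norm_num).trans
      (le_of_eq ?_)
    simp
  have hj1 : ∀ U, (∃ i, x i ∈ U) ∨ j U = 0 := by
    intro U
    by_cases h : ∃ i, x i ∈ U
    · exact Or.inl h
    · push Not at h
      exact Or.inr (sum_eq_zero fun i _ => if_neg (h i))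
  let b : V → ℤ := fun v => ∑ i, (WoodW.ind (x i) v - WoodW.ind y v)
  have hb : ∀ U : Finset V, ∑ v ∈ U, b v = j U - k * (if y ∈ U then 1 else 0) := by
    intro U
    simp only [b, j]
    rw [sum_comm]
    have h1 : ∀ i, ∑ v ∈ U, (WoodW.ind (x i) v - WoodW.ind y v) =
        (if x i ∈ U then 1 else 0) - (if y ∈ U then 1 else 0) := fun i => by
      rw [sum_sub_distrib, sum_ind, sum_ind]
    rw [sum_congr rfl fun i _ => h1 i, sum_sub_distrib]
    simp
  have hb0 : ∑ v, b v = 0 := by
    rw [hb]
    simp [j]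
  -- the flow
  obtain ⟨φ, f1, f2⟩ := hoffman_cap tl hd k hk (fun v => ((k + 1 : ℕ) * m : ℤ) * b v) (by
      rw [← mul_sum, hb0, mul_zero]) (by
      intro U hU
      rw [← mul_sum, hb]
      by_cases hy : y ∈ U
      · rw [if_pos hy, mul_one]
        have h1 : j U - k ≤ 0 := by have := hjk U; omega
        have h2 : ((k + 1 : ℕ) * m : ℤ) * (j U - k) ≤ 0 :=
          mul_nonpos_of_nonneg_of_nonpos (by positivity) h1
        exact h2.trans (by positivity)
      · rw [if_neg hy, mul_zero, sub_zero]
        rcases hj1 U with h | h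
        · have h1 := hcut U hU hy h
          have h2 : ((k + 1 : ℕ) * m : ℤ) ≤ (entr tl hd U).card := by exact_mod_cast h1
          have h3 := hjk U
          have h4 := hj0 U
          calc ((k + 1 : ℕ) * m : ℤ) * j U ≤ (entr tl hd U).card * j U :=
                mul_le_mul_of_nonneg_right h2 h4
            _ ≤ (entr tl hd U).card * k := mul_le_mul_of_nonneg_left h3 (by positivity)
            _ = _ := mul_comm _ _
        · rw [h, mul_zero]
          positivity)
  -- its residue
  have hq : (0 : ℤ) < (k + 1 : ℕ) := by positivity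
  let g : A → ℤ := fun a => φ a % ((k + 1 : ℕ) : ℤ)
  have g0 : ∀ a, 0 ≤ g a := fun a => Int.emod_nonneg _ hq.ne'
  have gk : ∀ a, g a ≤ k := fun a => by
    have := Int.emod_lt_of_pos (φ a) hq
    simp only [g]
    push_cast at this ⊢
    omega
  have gφ : ∀ a, φ a ≤ g a := by
    intro a
    rcases lt_or_ge (φ a) 0 with h | h
    · exact h.le.trans (g0 a)
    · have h1 : φ a < ((k + 1 : ℕ) : ℤ) := by
        have := f1 a
        push_cast
        omega
      simp only [g]
      rw [Int.emod_eq_of_lt h h1]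
  let h : V → ℤ := fun v => m * b v - net tl hd (fun a => φ a / ((k + 1 : ℕ) : ℤ)) v
  have hnet : ∀ v, net tl hd g v = ((k + 1 : ℕ) : ℤ) * h v := by
    intro v
    have h1 : net tl hd φ v = ((k + 1 : ℕ) : ℤ) * net tl hd (fun a => φ a / ((k + 1 : ℕ) : ℤ)) v +
        net tl hd g v := by
      unfold net
      rw [mul_sum, ← sum_add_distrib]
      refine sum_congr rfl fun a _ => ?_
      have h2 : φ a = ((k + 1 : ℕ) : ℤ) * (φ a / ((k + 1 : ℕ) : ℤ)) + g a :=
        (Int.mul_ediv_add_emod (φ a) _).symm
      rw [← mul_assoc, ← add_mul, ← h2]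
    rw [f2 v] at h1
    simp only [h]
    linarith
  have hnetU : ∀ U : Finset V, ((k + 1 : ℕ) : ℤ) * ∑ v ∈ U, h v =
      ∑ a, g a * ((if hd a ∈ U then 1 else 0) - (if tl a ∈ U then 1 else 0)) := by
    intro U
    rw [← sum_net, mul_sum]
    exact sum_congr rfl fun v _ => (hnet v).symm
  -- rounding
  obtain ⟨Bm, -, hBm⟩ := unit_flow tl hd univ h (by
      have h1 : ((k + 1 : ℕ) : ℤ) * ∑ v, h v = 0 := by
        rw [hnetU]
        exact sum_eq_zero fun a _ => by simp
      exact (mul_eq_zero.1 h1).resolve_left hq.ne') (by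
      intro X
      have h1 : ((k + 1 : ℕ) : ℤ) * ∑ v ∈ X, h v ≤ ((k + 1 : ℕ) : ℤ) * en tl hd univ X := by
        rw [hnetU, en, card_filter]
        push_cast
        rw [mul_sum]
        refine sum_le_sum fun a _ => ?_
        have h2 := g0 a
        have h3 := gk a
        by_cases h4 : tl a ∈ X <;> by_cases h5 : hd a ∈ X <;> simp [h4, h5] <;> omega
      exact le_of_mul_le_mul_left h1 hq)
  -- closed sets
  have hBmU : ∀ (F : Finset A) (U : Finset V), (∀ a, tl a ∈ U → hd a ∈ U) →
      nb tl hd F U = en tl hd F U := by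
    intro F U hU
    rw [nb_eq]
    have h1 : en hd tl F U = 0 := by
      unfold en
      rw [card_eq_zero, filter_eq_empty_iff]
      intro a _ h2
      exact h2.1 (hU a h2.2)
    rw [h1]
    simp
  have hup : ∀ U : Finset V, (∀ a, tl a ∈ U → hd a ∈ U) →
      ((k + 1 : ℕ) : ℤ) * en tl hd Bm U ≤ k * (entr tl hd U).card := by
    intro U hU
    rw [← hBmU Bm U hU, hBm U, hnetU, entr, card_filter]
    push_cast
    rw [mul_sum]
    refine sum_le_sum fun a _ => ?_
    have h2 := g0 a
    have h3 := gk a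
    by_cases h4 : tl a ∈ U
    · have h5 := hU a h4
      simp [h4, h5]
    · by_cases h5 : hd a ∈ U <;> simp [h4, h5]
      exact h3
  have hlow : ∀ U : Finset V, (∀ a, tl a ∈ U → hd a ∈ U) → y ∉ U →
      (m : ℤ) * j U ≤ en tl hd Bm U := by
    intro U hU hy
    have h1 : ((k + 1 : ℕ) : ℤ) * (m * j U) ≤ ((k + 1 : ℕ) : ℤ) * en tl hd Bm U := by
      rw [← hBmU Bm U hU, hBm U, hnetU]
      have h2 : ((k + 1 : ℕ) : ℤ) * (m * j U) = ∑ v ∈ U, net tl hd φ v := by
        rw [sum_congr rfl fun v _ => f2 v, ← mul_sum, hb, if_neg hy]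
        ring
      rw [h2, sum_net]
      refine sum_le_sum fun a _ => ?_
      have h3 := gφ a
      by_cases h4 : tl a ∈ U
      · have h5 := hU a h4
        simp [h4, h5]
      · by_cases h5 : hd a ∈ U <;> simp [h4, h5]
        exact h3
    exact le_of_mul_le_mul_left h1 hq
  -- the network of `Bm` and the reversed arcs
  let TE : A ⊕ (A × Fin (k * m)) → V := Sum.elim tl fun e => hd e.1
  let HE : A ⊕ (A × Fin (k * m)) → V := Sum.elim hd fun e => tl e.1
  let F : Finset (A ⊕ (A × Fin (k * m))) := Bm.disjSum univ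
  obtain ⟨F', hF1, hF2⟩ := unit_flow TE HE F (fun v => m * b v) (by
      rw [← mul_sum, hb0, mul_zero]) (by
      intro X
      rw [← mul_sum, hb]
      by_cases hy : y ∈ X
      · rw [if_pos hy, mul_one]
        have h1 : j X - k ≤ 0 := by have := hjk X; omega
        have h2 : (m : ℤ) * (j X - k) ≤ 0 :=
          mul_nonpos_of_nonneg_of_nonpos (by positivity) h1
        exact h2.trans (by positivity)
      rw [if_neg hy, mul_zero, sub_zero]
      by_cases hX : ∀ a, tl a ∈ X → hd a ∈ X
      · refine (hlow X hX hy).trans ?_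
        have h1 : en tl hd Bm X ≤ en TE HE F X := by
          unfold en
          refine card_le_card_of_injOn Sum.inl ?_ (Sum.inl_injective.injOn)
          intro a ha
          rw [mem_coe, mem_filter] at ha ⊢
          exact ⟨inl_mem_disjSum.2 ha.1, ha.2⟩
        exact_mod_cast h1
      · push Not at hX
        obtain ⟨a, ha1, ha2⟩ := hX
        have h1 : k * m ≤ en TE HE F X := by
          unfold en
          have h2 : (univ : Finset (Fin (k * m))).card ≤
              (F.filter fun e => TE e ∉ X ∧ HE e ∈ X).card := by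
            refine card_le_card_of_injOn (fun i => Sum.inr (a, i)) ?_ ?_
            · intro i _
              rw [mem_coe, mem_filter]
              exact ⟨inr_mem_disjSum.2 (mem_univ _), ha2, ha1⟩
            · intro i _ i' _ hii
              have h3 := Sum.inr_injective hii
              exact (Prod.mk.inj h3).2
          rwa [card_univ, Fintype.card_fin] at h2
        have h2 : (m : ℤ) * j X ≤ m * k := mul_le_mul_of_nonneg_left (hjk X) (by positivity)
        have h3 : ((k * m : ℕ) : ℤ) ≤ en TE HE F X := by exact_mod_cast h1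
        push_cast at h3
        linarith)
  obtain ⟨G, g1, g2, g3⟩ := split_flow TE HE m y k x F' (by
    intro X
    rw [hF2 X, ← mul_sum, ← mul_sum, hb]
    congr 1
    rw [sum_sub_distrib]
    simp [j])
  refine ⟨univ \ Bm, fun i => univ.filter fun a => Sum.inl a ∈ G i, fun i => ?_, fun i i' hii => ?_,
    fun U hU => ?_, fun i U hU hx hy => ?_⟩
  · rw [Finset.disjoint_left]
    intro a ha ha'
    rw [mem_sdiff] at ha
    rw [mem_filter] at ha'
    exact ha.2 (inl_mem_disjSum.1 (hF1 (g1 i ha'.2)))
  · rw [Finset.disjoint_left]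
    intro a ha ha'
    rw [mem_filter] at ha ha'
    exact Finset.disjoint_left.1 (g2 i i' hii) ha.2 ha'.2
  · have h1 := hup U hU
    have h2 : (entr tl hd U).card =
        ((univ \ Bm).filter fun a => tl a ∉ U ∧ hd a ∈ U).card + en tl hd Bm U := by
      unfold en entr
      rw [← card_union_of_disjoint]
      · congr 1
        ext a
        simp only [mem_union, mem_filter, mem_sdiff, mem_univ, true_and]
        tauto
      · rw [Finset.disjoint_left]
        intro a ha ha'
        rw [mem_filter, mem_sdiff] at ha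
        rw [mem_filter] at ha'
        exact ha.1.2 ha'.1
    have h3 : ((entr tl hd U).card : ℤ) ≤
        (k + 1 : ℕ) * (((univ \ Bm).filter fun a => tl a ∉ U ∧ hd a ∈ U).card : ℤ) := by
      have h4 : ((entr tl hd U).card : ℤ) =
        (((univ \ Bm).filter fun a => tl a ∉ U ∧ hd a ∈ U).card : ℤ) + en tl hd Bm U := by
        exact_mod_cast h2
      have h5 : (k : ℤ) * (entr tl hd U).card = k *
          (((univ \ Bm).filter fun a => tl a ∉ U ∧ hd a ∈ U).card : ℤ) + k * en tl hd Bm U := by
        rw [h4]; ring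
      push_cast at h1 ⊢
      linarith
    exact_mod_cast h3
  · have h1 := nb_le TE HE (G i) U
    rw [g3 i U, if_pos hx, if_neg hy, sub_zero, mul_one] at h1
    have h2 : en TE HE (G i) U ≤
        ((univ.filter fun a => Sum.inl a ∈ G i).filter fun a => tl a ∉ U ∧ hd a ∈ U).card := by
      unfold en
      have h3 : (G i).filter (fun e => TE e ∉ U ∧ HE e ∈ U) ⊆
          ((univ.filter fun a => Sum.inl a ∈ G i).filter fun a => tl a ∉ U ∧ hd a ∈ U).map
            ⟨Sum.inl, Sum.inl_injective⟩ := by
        intro e he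
        rw [mem_filter] at he
        rcases e with a | ⟨a, i'⟩
        · rw [mem_map]
          exact ⟨a, mem_filter.2 ⟨mem_filter.2 ⟨mem_univ _, he.1⟩, he.2⟩, rfl⟩
        · exact absurd (hU a he.2.2) he.2.1
      refine (card_le_card h3).trans (le_of_eq (card_map _))
    have h3 : m ≤ en TE HE (G i) U := by exact_mod_cast h1
    exact h3.trans h2

end WoodR
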