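import Pool.Agent.Lib.MP_492a9e_co.R.Arcs

/-!
# Reversal, and digraphs with few sink components or few source components
-/

open Finset WoodR

namespace WoodArc

set_option linter.unusedSectionVars false

variable {V A : Type}

theorem re_rev {tl hd : A → V} {u v : V} (h : Wood3.Re tl hd u v) : Wood3.Re hd tl v u := by
  induction h with
  | refl => exact Relation.ReflTransGen.refl
  | tail _ hs ih =>
    obtain ⟨a, h1, h2⟩ := hs
    exact Relation.ReflTransGen.head ⟨a, h2, h1⟩ ih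

theorem re_iff (tl hd : A → V) (u v : V) : Wood3.Re hd tl u v ↔ Wood3.Re tl hd v u :=
  ⟨fun h => re_rev h, fun h => re_rev h⟩

theorem Core.rev {tl hd : A → V} (h : Core tl hd) : Core hd tl := by
  intro s t hs ht h1 h2
  rw [re_iff]
  refine h t s (fun z hz => ?_) (fun z hz => ?_) ?_ ?_
  · exact (re_iff tl hd z t).1 (ht z ((re_iff tl hd t z).2 hz))
  · exact (re_iff tl hd s z).1 (hs z ((re_iff tl hd z s).2 hz))
  · obtain ⟨s1, s2, a1, a2, a3⟩ := h2
    exact ⟨s1, s2, (re_iff tl hd s1 t).1 a1, (re_iff tl hd s2 t).1 a2, fun ⟨z, hz1, hz2⟩ =>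
      a3 ⟨z, (re_iff tl hd z s1).2 hz1, (re_iff tl hd z s2).2 hz2⟩⟩
  · obtain ⟨t1, t2, a1, a2, a3⟩ := h1
    exact ⟨t1, t2, (re_iff tl hd s t1).1 a1, (re_iff tl hd s t2).1 a2, fun ⟨z, hz1, hz2⟩ =>
      a3 ⟨z, (re_iff tl hd t1 z).2 hz1, (re_iff tl hd t2 z).2 hz2⟩⟩

theorem compl_closed {tl hd : A → V} {U : Set V} (hU : ∀ a, tl a ∈ U → hd a ∈ U) (a : A)
    (ha : hd a ∈ Uᶜ) : tl a ∈ Uᶜ := fun h => ha (hU a h)

theorem CutGe.rev {tl hd : A → V} {k : ℕ} (h : CutGe tl hd k) : CutGe hd tl k := by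
  intro U h1 h2 h3
  have h4 := h Uᶜ (Set.nonempty_compl.2 h2) (fun h5 => by
    rw [Set.compl_univ_iff] at h5
    exact h1.ne_empty h5) (fun a ha => compl_closed (tl := hd) (hd := tl) h3 a ha)
  have h5 : {a | hd a ∉ U ∧ tl a ∈ U} = {a | tl a ∉ Uᶜ ∧ hd a ∈ Uᶜ} := by
    ext a
    constructor
    · rintro ⟨e1, e2⟩
      exact ⟨fun h => h e2, e1⟩
    · rintro ⟨e1, e2⟩
      exact ⟨e2, by_contra fun h => e1 h⟩
  rw [h5]
  exact h4

theorem Dij.rev {tl hd : A → V} {m : ℕ} (h : Dij tl hd m) : Dij hd tl m := by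
  obtain ⟨J, h1, h2⟩ := h
  refine ⟨J, h1, fun i U e1 e2 e3 => ?_⟩
  obtain ⟨a, ha, h3, h4⟩ := h2 i Uᶜ (Set.nonempty_compl.2 e2) (fun h5 => by
    rw [Set.compl_univ_iff] at h5
    exact e1.ne_empty h5) (fun a ha => compl_closed (tl := hd) (hd := tl) e3 a ha)
  rw [Set.mem_compl_iff, not_not] at h3
  exact ⟨a, ha, h4, h3⟩

/-- **additional arcs from whose tails `y` can be reached** -/
theorem star_out [Fintype V] [Fintype A] (tl hd : A → V) (n t m : ℕ) (x v : Fin n → V)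
    (y : V) (hx : ∀ i, Wood3.Re tl hd (x i) y) (hC : Core (Sum.elim tl x) (Sum.elim hd v))
    (hcut : CutGe tl hd ((t + 1) * m))
    (hn : n ≤ t ∨ ∀ U : Set V, (∀ a, tl a ∈ U → hd a ∈ U) → y ∈ U →
      (t + 1) * m * {i | v i ∉ U}.ncard ≤ t * {a | tl a ∉ U ∧ hd a ∈ U}.ncard) :
    Dij tl hd m := by
  refine (star hd tl n t m v x y (fun i => re_rev (hx i)) hC.rev hcut.rev
    (hn.imp_right fun h U hU hy => ?_)).rev
  have h1 := h Uᶜ (fun a ha => compl_closed (tl := hd) (hd := tl) hU a ha) hy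
  have h2 : {a | hd a ∉ U ∧ tl a ∈ U} = {a | tl a ∉ Uᶜ ∧ hd a ∈ Uᶜ} := by
    ext a
    constructor
    · rintro ⟨e1, e2⟩
      exact ⟨fun h => h e2, e1⟩
    · rintro ⟨e1, e2⟩
      exact ⟨e2, by_contra fun h => e1 h⟩
  have h3 : {i | v i ∈ U} = {i | v i ∉ Uᶜ} := by
    ext i
    exact ⟨fun h h' => h' h, fun h => by_contra fun h' => h h'⟩
  rw [h2, h3]
  exact h1

theorem re_mono {B : Type} {tl hd : A → V} {tl' hd' : B → V} {u v : V}
    (h : Wood3.Re tl hd u v) : Wood3.Re (Sum.elim tl tl') (Sum.elim hd hd') u v := by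
  induction h with
  | refl => exact Relation.ReflTransGen.refl
  | tail _ hs ih =>
    obtain ⟨a, h1, h2⟩ := hs
    exact Relation.ReflTransGen.tail ih ⟨Sum.inl a, h1, h2⟩

/-- two vertices such that one of them can be reached from every vertex -/
theorem core_of_two {tl hd : A → V} {a b : V}
    (h : ∀ v, Wood3.Re tl hd v a ∨ Wood3.Re tl hd v b) : Core tl hd := by
  intro s t hs ht h1 _
  obtain ⟨t1, t2, a1, a2, a3⟩ := h1
  have hs2 : Wood3.Re tl hd s a ∧ Wood3.Re tl hd s b := by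
    rcases h t1 with h1 | h1 <;> rcases h t2 with h2 | h2
    · exact absurd ⟨a, h1, h2⟩ a3
    · exact ⟨Relation.ReflTransGen.trans a1 h1, Relation.ReflTransGen.trans a2 h2⟩
    · exact ⟨Relation.ReflTransGen.trans a2 h2, Relation.ReflTransGen.trans a1 h1⟩
    · exact absurd ⟨b, h1, h2⟩ a3
  rcases h t with h1 | h1
  · exact Relation.ReflTransGen.trans hs2.1 (ht a h1)
  · exact Relation.ReflTransGen.trans hs2.2 (ht b h1)

/-- **few sink components** -/
theorem few_sinks [Fintype V] [Fintype A] (tl hd : A → V) (t m : ℕ) (s : Fin (t + 2) → V)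
    (hs : ∀ v, ∃ i, Wood3.Re tl hd v (s i)) (hcut : CutGe tl hd ((t + 1) * m)) :
    Dij tl hd m := by
  refine star tl hd t t m (fun i => s i.succ.succ) (fun _ => s 0) (s 0)
    (fun _ => Relation.ReflTransGen.refl) (core_of_two (a := s 0) (b := s 1) fun v => ?_) hcut
    (Or.inl le_rfl)
  obtain ⟨i, hi⟩ := hs v
  have hi' : Wood3.Re (Sum.elim tl fun i : Fin t => s i.succ.succ)
      (Sum.elim hd fun _ => s 0) v (s i) := re_mono hi
  rcases Fin.eq_zero_or_eq_succ i with h | ⟨j, h⟩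
  · subst h
    exact Or.inl hi'
  · subst h
    rcases Fin.eq_zero_or_eq_succ j with h | ⟨k, h⟩
    · subst h
      exact Or.inr hi'
    · subst h
      exact Or.inl (Relation.ReflTransGen.tail hi' ⟨Sum.inr k, rfl, rfl⟩)

/-- **few source components** -/
theorem few_sources [Fintype V] [Fintype A] (tl hd : A → V) (t m : ℕ) (s : Fin (t + 2) → V)
    (hs : ∀ v, ∃ i, Wood3.Re tl hd (s i) v) (hcut : CutGe tl hd ((t + 1) * m)) :
    Dij tl hd m :=
  (few_sinks hd tl t m s (fun v => (hs v).imp fun i hi => (re_iff tl hd v (s i)).2 hi)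
    hcut.rev).rev

end WoodArc
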