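import Pool.Agent.Lib.MP_492a9e_co.W.Hakimi

/-!
# Integral flows with free reversed arcs

The arc `a` goes from `tl a` to `hd a`. We look at functions `φ` on the arcs with integral values
`≤ 1` and no lower bound. `net tl hd φ v` is the net inflow at `v`.

`aug`: the augmentation step. `hoffman`: if `g(V) = 0` and `g(U)` is at most the number of arcs
entering `U` for every closed `U` (no arc leaves `U`), then there is `φ ≤ 1` with net inflow `g`.
`ring_flow`: net inflow `K` at `x` and `-K` at `y`.
-/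

open Finset

namespace WoodR

set_option linter.unusedSectionVars false

variable {V A : Type} [Fintype V] [DecidableEq V] [Fintype A] [DecidableEq A]

/-- net inflow -/
def net (tl hd : A → V) (φ : A → ℤ) (v : V) : ℤ :=
  ∑ a, φ a * (WoodW.ind (hd a) v - WoodW.ind (tl a) v)

/-- the arcs entering `U` -/
def entr (tl hd : A → V) (U : Finset V) : Finset A := univ.filter fun a => tl a ∉ U ∧ hd a ∈ U

theorem mem_entr {tl hd : A → V} {U : Finset V} {a : A} :
    a ∈ entr tl hd U ↔ tl a ∉ U ∧ hd a ∈ U := by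
  rw [entr, mem_filter]
  exact ⟨fun h => h.2, fun h => ⟨mem_univ _, h⟩⟩

theorem sum_ind (b : V) (U : Finset V) : ∑ v ∈ U, WoodW.ind b v = if b ∈ U then 1 else 0 := by
  by_cases h : b ∈ U
  · rw [if_pos h, sum_eq_single_of_mem b h fun v _ hv => WoodW.ind_ne (Ne.symm hv),
      WoodW.ind_self]
  · rw [if_neg h]
    refine sum_eq_zero fun v hv => WoodW.ind_ne ?_
    rintro rfl
    exact h hv

/-- net inflow into a set -/
theorem sum_net (tl hd : A → V) (φ : A → ℤ) (U : Finset V) :
    ∑ v ∈ U, net tl hd φ v =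
      ∑ a, φ a * ((if hd a ∈ U then 1 else 0) - (if tl a ∈ U then 1 else 0)) := by
  unfold net
  rw [sum_comm]
  refine sum_congr rfl fun a _ => ?_
  rw [← mul_sum, sum_sub_distrib, sum_ind, sum_ind]

/-- net inflow into a closed set -/
theorem sum_net_closed {tl hd : A → V} (φ : A → ℤ) {U : Finset V}
    (hU : ∀ a, tl a ∈ U → hd a ∈ U) : ∑ v ∈ U, net tl hd φ v = ∑ a ∈ entr tl hd U, φ a := by
  rw [sum_net, entr, sum_filter]
  refine sum_congr rfl fun a _ => ?_
  by_cases h1 : tl a ∈ U
  · have h2 := hU a h1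
    simp [h1, h2]
  · by_cases h2 : hd a ∈ U <;> simp [h1, h2]

theorem sum_net_univ (tl hd : A → V) (φ : A → ℤ) : ∑ v, net tl hd φ v = 0 := by
  rw [sum_net]
  exact sum_eq_zero fun a _ => by simp

theorem net_add (tl hd : A → V) (φ ψ : A → ℤ) (v : V) :
    net tl hd (fun a => φ a + ψ a) v = net tl hd φ v + net tl hd ψ v := by
  unfold net
  rw [← sum_add_distrib]
  exact sum_congr rfl fun a _ => by ring

theorem net_single (tl hd : A → V) (a : A) (s : ℤ) (v : V) :
    net tl hd (fun b => if b = a then s else 0) v =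
      s * (WoodW.ind (hd a) v - WoodW.ind (tl a) v) := by
  unfold net
  rw [sum_eq_single_of_mem a (mem_univ a)]
  · simp only [if_true]
  · intro b _ hb
    simp only [if_neg hb, zero_mul]

/-- the set reachable from `y` along arcs with `P` and reversed arcs -/
theorem reach (tl hd : A → V) (P : A → Prop) (y : V) : ∃ S : Finset V, y ∈ S ∧
    (∀ a, P a → tl a ∈ S → hd a ∈ S) ∧ (∀ a, hd a ∈ S → tl a ∈ S) ∧
    ∀ v ∈ S, ∃ ψ : A → ℤ, (∀ a, ψ a ≤ 1) ∧ (∀ a, ¬ P a → ψ a ≤ 0) ∧
      ∀ w, net tl hd ψ w = WoodW.ind v w - WoodW.ind y w := by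
  classical
  let G : Finset V → Prop := fun S => y ∈ S ∧ ∀ v ∈ S, ∃ ψ : A → ℤ,
    (∀ a, ψ a ≠ 0 → tl a ∈ S ∧ hd a ∈ S) ∧ (∀ a, ψ a ≤ 1) ∧ (∀ a, ¬ P a → ψ a ≤ 0) ∧
      ∀ w, net tl hd ψ w = WoodW.ind v w - WoodW.ind y w
  have h0 : G {y} := by
    refine ⟨mem_singleton_self y, fun v hv => ⟨fun _ => 0, fun a h => absurd rfl h,
      fun a => by norm_num, fun a _ => le_refl _, fun w => ?_⟩⟩
    rw [mem_singleton] at hv
    subst hv
    unfold net
    simp
  obtain ⟨S, hS, hmax⟩ := (univ.filter G).exists_max_image card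
    ⟨{y}, mem_filter.2 ⟨mem_univ _, h0⟩⟩
  have hG : G S := (mem_filter.1 hS).2
  -- adding a vertex
  have hadd : ∀ (a : A) (u v : V) (s : ℤ), u ∈ S → v ∉ S →
      (tl a = u ∧ hd a = v ∨ hd a = u ∧ tl a = v) → s ≤ 1 → (¬ P a → s ≤ 0) →
      (∀ w, s * (WoodW.ind (hd a) w - WoodW.ind (tl a) w) = WoodW.ind v w - WoodW.ind u w) →
      False := by
    intro a u v s hu hv hends hs1 hs2 hs3
    have hG' : G (insert v S) := by
      refine ⟨mem_insert_of_mem hG.1, fun v' hv' => ?_⟩
      rcases mem_insert.1 hv' with h | h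
      · subst h
        obtain ⟨ψ, e1, e2, e3, e4⟩ := hG.2 u hu
        have ha0 : ψ a = 0 := by
          by_contra hne
          have h5 := e1 a hne
          rcases hends with h6 | h6
          · exact hv (h6.2 ▸ h5.2)
          · exact hv (h6.2 ▸ h5.1)
        refine ⟨fun b => ψ b + if b = a then s else 0, ?_, ?_, ?_, ?_⟩
        · intro b hb
          by_cases hba : b = a
          · subst hba
            rcases hends with h6 | h6
            · exact ⟨mem_insert_of_mem (h6.1 ▸ hu), h6.2 ▸ mem_insert_self _ _⟩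
            · exact ⟨h6.2 ▸ mem_insert_self _ _, mem_insert_of_mem (h6.1 ▸ hu)⟩
          · simp only [if_neg hba, add_zero] at hb
            exact ⟨mem_insert_of_mem (e1 b hb).1, mem_insert_of_mem (e1 b hb).2⟩
        · intro b
          by_cases hba : b = a
          · subst hba
            simp only [if_pos, ha0, zero_add]
            exact hs1
          · simp only [if_neg hba, add_zero]
            exact e2 b
        · intro b hb
          by_cases hba : b = a
          · subst hba
            simp only [if_pos, ha0, zero_add]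
            exact hs2 hb
          · simp only [if_neg hba, add_zero]
            exact e3 b hb
        · intro w
          rw [net_add, net_single, e4, hs3]
          ring
      · obtain ⟨ψ, e1, e2, e3, e4⟩ := hG.2 v' h
        exact ⟨ψ, fun b hb => ⟨mem_insert_of_mem (e1 b hb).1, mem_insert_of_mem (e1 b hb).2⟩,
          e2, e3, e4⟩
    have h7 := hmax (insert v S) (mem_filter.2 ⟨mem_univ _, hG'⟩)
    rw [card_insert_of_notMem hv] at h7
    omega
  refine ⟨S, hG.1, fun a hP h1 => ?_, fun a h1 => ?_, fun v hv => ?_⟩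
  · by_contra h2
    exact hadd a _ _ 1 h1 h2 (Or.inl ⟨rfl, rfl⟩) (le_refl _) (fun h => absurd hP h)
      (fun w => by rw [one_mul])
  · by_contra h2
    exact hadd a _ _ (-1) h1 h2 (Or.inr ⟨rfl, rfl⟩) (by norm_num) (fun _ => by norm_num)
      (fun w => by ring)
  · obtain ⟨ψ, -, e2, e3, e4⟩ := hG.2 v hv
    exact ⟨ψ, e2, e3, e4⟩

/-- **augmentation** -/
theorem aug (tl hd : A → V) (φ : A → ℤ) (hφ : ∀ a, φ a ≤ 1) (y x : V) :
    (∃ φ' : A → ℤ, (∀ a, φ' a ≤ 1) ∧
      ∀ w, net tl hd φ' w = net tl hd φ w + (WoodW.ind x w - WoodW.ind y w)) ∨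
    ∃ U : Finset V, x ∈ U ∧ y ∉ U ∧ (∀ a, tl a ∈ U → hd a ∈ U) ∧
      ∀ a, tl a ∉ U → hd a ∈ U → φ a = 1 := by
  obtain ⟨S, h1, h2, h3, h4⟩ := reach tl hd (fun a => φ a ≤ 0) y
  by_cases hx : x ∈ S
  · left
    obtain ⟨ψ, e1, e2, e3⟩ := h4 x hx
    refine ⟨fun a => φ a + ψ a, fun a => ?_, fun w => by rw [net_add, e3]⟩
    by_cases hP : φ a ≤ 0
    · have := e1 a
      change φ a + ψ a ≤ 1
      omega
    · have := e2 a hP
      have := hφ a
      change φ a + ψ a ≤ 1
      omega
  · right
    refine ⟨Sᶜ, mem_compl.2 hx, fun h => (mem_compl.1 h) h1, fun a ha => ?_, fun a ha hb => ?_⟩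
    · rw [mem_compl] at ha ⊢
      exact fun h => ha (h3 a h)
    · rw [mem_compl, not_not] at ha
      rw [mem_compl] at hb
      have h5 : ¬ φ a ≤ 0 := fun h => hb (h2 a h ha)
      have := hφ a
      omega

/-- **flows with prescribed net inflow** -/
theorem hoffman (tl hd : A → V) (g : V → ℤ) (h0 : ∑ v, g v = 0)
    (hg : ∀ U : Finset V, (∀ a, tl a ∈ U → hd a ∈ U) → ∑ v ∈ U, g v ≤ (entr tl hd U).card) :
    ∃ φ : A → ℤ, (∀ a, φ a ≤ 1) ∧ ∀ v, net tl hd φ v = g v := by
  classical
  have key : ∀ (n : ℕ) (φ : A → ℤ), (∀ a, φ a ≤ 1) →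
      ∑ v, (g v - net tl hd φ v).toNat = n →
      ∃ φ : A → ℤ, (∀ a, φ a ≤ 1) ∧ ∀ v, net tl hd φ v = g v := by
    intro n
    induction n with
    | zero =>
      intro φ hφ hn
      have h1 : ∀ v, g v - net tl hd φ v ≤ 0 := by
        intro v
        have := (sum_eq_zero_iff.1 hn) v (mem_univ v)
        exact Int.toNat_eq_zero.1 this
      refine ⟨φ, hφ, fun v => ?_⟩
      have h2 : ∑ v, (net tl hd φ v - g v) = 0 := by
        rw [sum_sub_distrib, sum_net_univ, h0, sub_zero]
      have h3 := (sum_eq_zero_iff_of_nonneg fun v _ => by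
        have := h1 v; omega).1 h2 v (mem_univ v)
      omega
    | succ n ih =>
      intro φ hφ hn
      obtain ⟨x, -, hx⟩ : ∃ x ∈ (univ : Finset V), (g x - net tl hd φ x).toNat ≠ 0 := by
        by_contra hno
        push Not at hno
        rw [sum_eq_zero hno] at hn
        omega
      have hx' : net tl hd φ x < g x := by omega
      by_cases hY : ∃ y, g y < net tl hd φ y ∧ ∃ φ' : A → ℤ, (∀ a, φ' a ≤ 1) ∧
          ∀ w, net tl hd φ' w = net tl hd φ w + (WoodW.ind x w - WoodW.ind y w)
      · obtain ⟨y, hy, φ', e1, e2⟩ := hY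
        refine ih φ' e1 ?_
        have hxy : x ≠ y := by
          rintro rfl
          omega
        have h3 : ∀ v, (g v - net tl hd φ' v).toNat + (if v = x then 1 else 0) =
            (g v - net tl hd φ v).toNat := by
          intro v
          rw [e2]
          by_cases hvx : v = x
          · subst hvx
            rw [WoodW.ind_self, WoodW.ind_ne (Ne.symm hxy), if_pos rfl]
            omega
          · rw [WoodW.ind_ne (Ne.symm hvx), if_neg hvx]
            by_cases hvy : v = y
            · subst hvy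
              rw [WoodW.ind_self]
              omega
            · rw [WoodW.ind_ne (Ne.symm hvy)]
              omega
        have h4 : ∑ v, ((g v - net tl hd φ' v).toNat + (if v = x then 1 else 0)) = n + 1 := by
          rw [← hn]
          exact sum_congr rfl fun v _ => h3 v
        rw [sum_add_distrib, sum_ite_eq' univ x (fun _ => 1), if_pos (mem_univ x)] at h4
        omega
      · exfalso
        push Not at hY
        have hU : ∀ y, ∃ U : Finset V, x ∈ U ∧ (g y < net tl hd φ y → y ∉ U) ∧
            (∀ a, tl a ∈ U → hd a ∈ U) ∧ ∀ a, tl a ∉ U → hd a ∈ U → φ a = 1 := by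
          intro y
          by_cases hy : g y < net tl hd φ y
          · rcases aug tl hd φ hφ y x with ⟨φ', e1, e2⟩ | ⟨U, e1, e2, e3, e4⟩
            · obtain ⟨w, hw⟩ := hY y hy φ' e1
              exact absurd (e2 w) hw
            · exact ⟨U, e1, fun _ => e2, e3, e4⟩
          · exact ⟨univ, mem_univ _, fun h => absurd h hy, fun _ _ => mem_univ _,
              fun a h => absurd (mem_univ _) h⟩
        choose U u1 u2 u3 u4 using hU
        let W : Finset V := univ.filter fun v => ∀ y, v ∈ U y
        have hW : ∀ v, v ∈ W ↔ ∀ y, v ∈ U y := fun v => by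
          change v ∈ univ.filter _ ↔ _
          rw [mem_filter]
          exact ⟨fun h => h.2, fun h => ⟨mem_univ _, h⟩⟩
        have hWc : ∀ a, tl a ∈ W → hd a ∈ W := by
          intro a ha
          rw [hW] at ha ⊢
          exact fun y => u3 y a (ha y)
        have h5 := hg W hWc
        have h6 : ∑ v ∈ W, net tl hd φ v = (entr tl hd W).card := by
          rw [sum_net_closed φ hWc, card_eq_sum_ones]
          push_cast
          refine sum_congr rfl fun a ha => ?_
          rw [mem_entr, hW, hW] at ha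
          obtain ⟨h7, h8⟩ := ha
          push Not at h7
          obtain ⟨y, hy⟩ := h7
          exact u4 y a hy (h8 y)
        have h7 : ∑ v ∈ W, (net tl hd φ v - g v) < ∑ v ∈ W, (0 : ℤ) := by
          refine sum_lt_sum (fun v hv => ?_) ⟨x, (hW x).2 u1, by omega⟩
          by_contra hlt
          push Not at hlt
          exact u2 v (by omega) ((hW v).1 hv v)
        rw [sum_sub_distrib, sum_const_zero] at h7
        omega
  exact key _ (fun _ => 0) (fun a => by norm_num) rfl

/-- flow for a ring family -/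
theorem ring_flow (tl hd : A → V) (x y : V) (K : ℕ)
    (h : ∀ U : Finset V, (∀ a, tl a ∈ U → hd a ∈ U) → x ∈ U → y ∉ U →
      K ≤ (entr tl hd U).card) :
    ∃ φ : A → ℤ, (∀ a, φ a ≤ 1) ∧
      ∀ v, net tl hd φ v = K * (WoodW.ind x v - WoodW.ind y v) := by
  refine hoffman tl hd _ ?_ fun U hU => ?_
  · rw [← mul_sum, sum_sub_distrib, sum_ind, sum_ind]
    simp
  · rw [← mul_sum, sum_sub_distrib, sum_ind, sum_ind]
    by_cases hx : x ∈ U
    · by_cases hy : y ∈ U
      · simp [hx, hy]
      · have := h U hU hx hy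
        simp [hx, hy, this]
    · by_cases hy : y ∈ U <;> simp [hx, hy]

end WoodR
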