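import Pool.Agent.Lib.MP_492a9e_co.R.Flow
import Pool.Agent.Lib.MP_492a9e_co.W.Hakimi

/-!
# Rounding of `Z_q`-flows

`round`: if `0 ≤ g ≤ q` is integral and all net inflows of `g` are multiples `q * b v`, then there
is a set `c` of arcs such that every closed `U` is entered by exactly `b(U)` arcs of `c`.

`zq`: if `ζ` is integral, `ζ(V) = 0` and `(t + 1) ζ(U) ≤ t d(U)` for all closed `U`, then there is
a set `c` of arcs such that every closed `U` is entered by at least `ζ(U)` arcs of `c` and by at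
least `d(U) / (t + 1)` other arcs.
-/

open Finset

namespace WoodR

set_option linter.unusedSectionVars false

open Pool.Agent.Lib.MP492a9eW (cr yy hakimi)

variable {V A : Type} [Fintype V] [DecidableEq V] [Fintype A] [DecidableEq A]

/-- the contribution of an arc -/
def dif (tl hd : A → V) (U : Finset V) (a : A) : ℤ :=
  (if hd a ∈ U then 1 else 0) - (if tl a ∈ U then 1 else 0)

theorem dif_cases (tl hd : A → V) (U : Finset V) (a : A) :
    dif tl hd U a = 0 ∨ dif tl hd U a = 1 ∨ dif tl hd U a = -1 := by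
  unfold dif
  by_cases h1 : hd a ∈ U <;> by_cases h2 : tl a ∈ U <;> simp [h1, h2]

theorem dif_entr {tl hd : A → V} {U : Finset V} (hU : ∀ a, tl a ∈ U → hd a ∈ U) (φ : A → ℤ) :
    ∑ a, φ a * dif tl hd U a = ∑ a ∈ entr tl hd U, φ a := by
  rw [entr, sum_filter]
  refine sum_congr rfl fun a _ => ?_
  unfold dif
  by_cases h1 : tl a ∈ U
  · have h2 := hU a h1
    simp [h1, h2]
  · by_cases h2 : hd a ∈ U <;> simp [h1, h2]

theorem sum_net' (tl hd : A → V) (φ : A → ℤ) (U : Finset V) :
    ∑ v ∈ U, net tl hd φ v = ∑ a, φ a * dif tl hd U a := sum_net tl hd φ U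

theorem yy_eq (tl hd : A → V) (s : A → ℤ) (U : Finset V) :
    yy tl hd s U = ∑ a, s a * dif tl hd U a := rfl

theorem cr_eq (tl hd : A → V) (U : Finset V) : cr tl hd U = ∑ a, |dif tl hd U a| := rfl

/-- **rounding** -/
theorem round (tl hd : A → V) (q : ℕ) (hq : 0 < q) (g : A → ℤ) (h0 : ∀ a, 0 ≤ g a)
    (h1 : ∀ a, g a ≤ q) (b : V → ℤ) (hb : ∀ v, net tl hd g v = q * b v) :
    ∃ c : Finset A, ∀ U : Finset V, (∀ a, tl a ∈ U → hd a ∈ U) →
      (((entr tl hd U).filter fun a => a ∈ c).card : ℤ) = ∑ v ∈ U, b v := by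
  classical
  have hqz : (0 : ℤ) < q := by exact_mod_cast hq
  have hbU : ∀ U : Finset V, (q : ℤ) * ∑ v ∈ U, b v = ∑ a, g a * dif tl hd U a := by
    intro U
    rw [← sum_net', mul_sum]
    exact sum_congr rfl fun v _ => (hb v).symm
  have hY : ∀ U : Finset V, ∑ v ∈ U, net tl hd (fun _ => 1) v = ∑ a, dif tl hd U a := by
    intro U
    rw [sum_net']
    exact sum_congr rfl fun a _ => one_mul _
  let w : V → ℤ := fun v => 2 * b v - net tl hd (fun _ => 1) v
  have hw : ∀ U : Finset V, ∑ v ∈ U, w v = 2 * ∑ v ∈ U, b v - ∑ a, dif tl hd U a := by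
    intro U
    rw [← hY, mul_sum, ← sum_sub_distrib]
  obtain ⟨s, hs1, hs2⟩ := hakimi (tl := tl) (hd := hd) w (by
      rw [hw]
      have h2 : ∀ φ : A → ℤ, ∑ a, φ a * dif tl hd univ a = 0 := fun φ =>
        sum_eq_zero fun a _ => by simp [dif]
      have h3 := hbU univ
      rw [h2] at h3
      have h4 : ∑ v, b v = 0 := by
        rcases mul_eq_zero.1 h3 with h5 | h5
        · omega
        · exact h5
      have h5 : ∑ a, dif tl hd univ a = 0 := sum_eq_zero fun a _ => by simp [dif]
      rw [h4, h5]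
      norm_num) (by
      intro v
      have h2 : ∃ k : ℤ, cr tl hd {v} = - ∑ a, dif tl hd {v} a + 2 * k := by
        have h3 : Even (∑ a, (|dif tl hd {v} a| + dif tl hd {v} a)) := by
          refine Finset.even_sum _ fun a _ => ?_
          rcases dif_cases tl hd {v} a with h | h | h <;> rw [h]
          · exact ⟨0, by norm_num⟩
          · exact ⟨1, by norm_num⟩
          · exact ⟨0, by norm_num⟩
        obtain ⟨k, hk⟩ := h3
        rw [sum_add_distrib] at hk
        refine ⟨k, ?_⟩
        rw [cr_eq]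
        omega
      obtain ⟨k, hk⟩ := h2
      have h3 := hw {v}
      rw [sum_singleton, sum_singleton] at h3
      exact ⟨k - b v, by rw [hk, h3]; ring⟩) (by
      intro X
      have h2 : (q : ℤ) * (- cr tl hd X) ≤ q * ∑ v ∈ X, w v := by
        rw [hw, mul_sub, mul_left_comm, hbU, cr_eq, mul_neg, mul_sum, mul_sum, mul_sum,
          ← sum_neg_distrib, ← sum_sub_distrib]
        refine sum_le_sum fun a _ => ?_
        have e0 := h0 a
        have e1 := h1 a
        rcases dif_cases tl hd X a with h | h | h <;> rw [h]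
        · simp
        · rw [abs_one]
          linarith
        · rw [abs_neg, abs_one]
          linarith
      exact le_of_mul_le_mul_left h2 hqz)
  let c : Finset A := univ.filter fun a => s a = 1
  have hc : ∀ a, a ∈ c ↔ s a = 1 := fun a => by
    change a ∈ univ.filter _ ↔ _
    rw [mem_filter]
    exact ⟨fun h => h.2, fun h => ⟨mem_univ _, h⟩⟩
  refine ⟨c, fun U hU => ?_⟩
  have h2 : ∑ a ∈ entr tl hd U, s a = 2 * ∑ v ∈ U, b v - (entr tl hd U).card := by
    rw [← dif_entr hU, ← yy_eq, hs2, hw]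
    have h3 : ∑ a, dif tl hd U a = ((entr tl hd U).card : ℤ) := by
      have h4 := dif_entr hU (fun _ => 1)
      simp only [one_mul] at h4
      rw [h4, sum_const, nsmul_eq_mul, mul_one]
    rw [h3]
  have h3 : ∑ a ∈ entr tl hd U, s a =
      ∑ a ∈ entr tl hd U, (2 * (if a ∈ c then (1 : ℤ) else 0) - 1) := by
    refine sum_congr rfl fun a _ => ?_
    by_cases ha : a ∈ c
    · rw [if_pos ha, (hc a).1 ha]; norm_num
    · rw [if_neg ha]
      rcases hs1 a with h | h
      · exact absurd ((hc a).2 h) ha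
      · rw [h]; norm_num
  rw [h3, sum_sub_distrib, ← mul_sum, ← sum_filter, sum_const, sum_const, nsmul_eq_mul,
    nsmul_eq_mul, mul_one, mul_one] at h2
  omega

/-- **`Z_q` lemma** -/
theorem zq (tl hd : A → V) (t : ℕ) (ζ : V → ℤ) (h0 : ∑ v, ζ v = 0)
    (hζ : ∀ U : Finset V, (∀ a, tl a ∈ U → hd a ∈ U) →
      ((t : ℤ) + 1) * ∑ v ∈ U, ζ v ≤ t * (entr tl hd U).card) :
    ∃ c : Finset A,
      (∀ U : Finset V, (∀ a, tl a ∈ U → hd a ∈ U) →
        ∑ v ∈ U, ζ v ≤ ((entr tl hd U).filter fun a => a ∈ c).card) ∧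
      ∀ U : Finset V, (∀ a, tl a ∈ U → hd a ∈ U) →
        (entr tl hd U).card ≤ (t + 1) * ((entr tl hd U).filter fun a => a ∉ c).card := by
  classical
  rcases Nat.eq_zero_or_pos t with rfl | ht
  · refine ⟨∅, fun U hU => ?_, fun U hU => ?_⟩
    · have h1 := hζ U hU
      simp only [Nat.cast_zero, zero_add, one_mul, zero_mul] at h1
      refine h1.trans ?_
      positivity
    · simp
  -- the flow
  let tl' : A × Fin t → V := fun p => tl p.1
  let hd' : A × Fin t → V := fun p => hd p.1
  obtain ⟨φ', e1, e2⟩ := hoffman tl' hd' (fun v => ((t : ℤ) + 1) * ζ v)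
    (by rw [← mul_sum, h0, mul_zero]) (by
    intro U hU
    have hU' : ∀ a, tl a ∈ U → hd a ∈ U := fun a => hU (a, ⟨0, ht⟩)
    have h1 : (entr tl' hd' U).card = t * (entr tl hd U).card := by
      have h2 : entr tl' hd' U = entr tl hd U ×ˢ (univ : Finset (Fin t)) := by
        ext ⟨a, j⟩
        rw [mem_product, mem_entr, mem_entr]
        exact ⟨fun h => ⟨h, mem_univ _⟩, fun h => h.1⟩
      rw [h2, card_product, card_univ, Fintype.card_fin, mul_comm]
    rw [h1, ← mul_sum]
    push_cast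
    exact hζ U hU')
  let φ : A → ℤ := fun a => ∑ j : Fin t, φ' (a, j)
  have hφ1 : ∀ a, φ a ≤ t := by
    intro a
    calc φ a ≤ ∑ _j : Fin t, (1 : ℤ) := sum_le_sum fun j _ => e1 _
      _ = t := by simp
  have hφ2 : ∀ v, net tl hd φ v = ((t : ℤ) + 1) * ζ v := by
    intro v
    rw [← e2 v]
    unfold net
    rw [← univ_product_univ, sum_product]
    refine sum_congr rfl fun a _ => ?_
    rw [sum_mul]
  let g : A → ℤ := fun a => φ a % ((t : ℤ) + 1)
  let k : A → ℤ := fun a => φ a / ((t : ℤ) + 1)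
  have hpos : (0 : ℤ) < (t : ℤ) + 1 := by positivity
  have hgk : ∀ a, φ a = ((t : ℤ) + 1) * k a + g a := fun a => (Int.mul_ediv_add_emod _ _).symm
  have hg0 : ∀ a, 0 ≤ g a := fun a => Int.emod_nonneg _ (ne_of_gt hpos)
  have hg1 : ∀ a, g a ≤ t := fun a => by
    have := Int.emod_lt_of_pos (φ a) hpos
    change φ a % ((t : ℤ) + 1) ≤ t
    omega
  have hk : ∀ a, k a ≤ 0 := by
    intro a
    by_contra h
    push Not at h
    have h2 := hφ1 a
    have h3 := hg0 a
    have h4 := hgk a
    nlinarith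
  have hφg : ∀ a, φ a ≤ g a := by
    intro a
    have h3 := hgk a
    have h4 := hk a
    nlinarith
  let b : V → ℤ := fun v => ζ v - net tl hd k v
  have hb : ∀ v, net tl hd g v = ((t + 1 : ℕ) : ℤ) * b v := by
    intro v
    have h3 : net tl hd φ v = ((t : ℤ) + 1) * net tl hd k v + net tl hd g v := by
      unfold net
      rw [mul_sum, ← sum_add_distrib]
      refine sum_congr rfl fun a _ => ?_
      rw [hgk a]
      ring
    rw [hφ2] at h3
    push_cast
    change net tl hd g v = ((t : ℤ) + 1) * (ζ v - net tl hd k v)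
    linarith
  obtain ⟨c, hc⟩ := round tl hd (t + 1) (Nat.succ_pos t) g hg0 (fun a => by
    have := hg1 a
    push_cast
    omega) b hb
  have hbU : ∀ U : Finset V, (∀ a, tl a ∈ U → hd a ∈ U) →
      ((t : ℤ) + 1) * ∑ v ∈ U, b v = ∑ a ∈ entr tl hd U, g a := by
    intro U hU
    rw [← sum_net_closed g hU, mul_sum]
    refine sum_congr rfl fun v _ => ?_
    rw [hb v]
    push_cast
    rfl
  refine ⟨c, fun U hU => ?_, fun U hU => ?_⟩
  · have h3 : ((t : ℤ) + 1) * ∑ v ∈ U, ζ v ≤ ((t : ℤ) + 1) * ∑ v ∈ U, b v := by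
      rw [hbU U hU, mul_sum, ← sum_congr rfl fun v _ => hφ2 v, sum_net_closed φ hU]
      exact sum_le_sum fun a _ => hφg a
    rw [hc U hU]
    exact le_of_mul_le_mul_left h3 hpos
  · have h3 : ((t : ℤ) + 1) * ∑ v ∈ U, b v ≤ t * (entr tl hd U).card := by
      rw [hbU U hU]
      calc ∑ a ∈ entr tl hd U, g a ≤ ∑ _a ∈ entr tl hd U, (t : ℤ) := sum_le_sum fun a _ => hg1 a
        _ = t * (entr tl hd U).card := by rw [sum_const, nsmul_eq_mul, mul_comm]
    have h4 := hc U hU
    have h5 := card_filter_add_card_filter_not (s := entr tl hd U) (fun a => a ∈ c)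
    have h6 : (((entr tl hd U).filter fun a => a ∈ c).card : ℤ) +
        ((entr tl hd U).filter fun a => a ∉ c).card = (entr tl hd U).card := by
      exact_mod_cast h5
    have h7 : ((entr tl hd U).card : ℤ) ≤
        (((t + 1) * ((entr tl hd U).filter fun a => a ∉ c).card : ℕ) : ℤ) := by
      push_cast
      rw [← h4] at h3
      nlinarith
    exact_mod_cast h7

end WoodR
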